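import Mathlib

-- merged part: Pool.Agent.Work.MP_11a08a_al.Trace
section
/-!
Character values in quasi-primitive unitary representations of solvable groups.
-/

set_option autoImplicit false

open Finset Module
open scoped InnerProductSpace

namespace Pool.Agent.Work.MP_11a08a_al

variable {Γ W : Type*} [Group Γ] [NormedAddCommGroup W] [InnerProductSpace ℂ W]
  [FiniteDimensional ℂ W]

/-- A representation by isometries. -/
def IsUni {G E : Type*} [Group G] [NormedAddCommGroup E] [InnerProductSpace ℂ E]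
    (σ : Representation ℂ G E) : Prop := ∀ g v w, ⟪σ g v, σ g w⟫_ℂ = ⟪v, w⟫_ℂ

theorem IsUni.adj {G E : Type*} [Group G] [NormedAddCommGroup E] [InnerProductSpace ℂ E]
    {σ : Representation ℂ G E} (h : IsUni σ) (a b : G) (v w : E) :
    ⟪σ a v, σ b w⟫_ℂ = ⟪v, σ (a⁻¹ * b) w⟫_ℂ := by
  rw [← h a v, ← Module.End.mul_apply, ← map_mul, mul_inv_cancel_left]

theorem IsUni.norm {G E : Type*} [Group G] [NormedAddCommGroup E] [InnerProductSpace ℂ E]
    {σ : Representation ℂ G E} (h : IsUni σ) (a : G) (v : E) : ‖σ a v‖ = ‖v‖ := by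
  have h1 := h a v v
  rw [inner_self_eq_norm_sq_to_K, inner_self_eq_norm_sq_to_K] at h1
  have h2 : ‖σ a v‖ ^ 2 = ‖v‖ ^ 2 := by exact_mod_cast h1
  exact (pow_left_inj₀ (norm_nonneg _) (norm_nonneg _) two_ne_zero).mp h2

omit [FiniteDimensional ℂ W] in
theorem trace_conj (σ : Representation ℂ Γ W) (g n : Γ) :
    LinearMap.trace ℂ W (σ (n * g * n⁻¹)) = LinearMap.trace ℂ W (σ g) := by
  rw [map_mul, LinearMap.trace_mul_comm, ← map_mul, inv_mul_cancel_left]

omit [FiniteDimensional ℂ W] in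
theorem trace_eq_zero_of_conj (σ : Representation ℂ Γ W) (hinj : Function.Injective σ)
    (g g' c : Γ) (ζ : ℂ) (hc : σ c = ζ • 1) (hc1 : c ≠ 1) (h : g' = g * c)
    (htr : LinearMap.trace ℂ W (σ g') = LinearMap.trace ℂ W (σ g)) :
    LinearMap.trace ℂ W (σ g) = 0 := by
  have hζ : ζ ≠ 1 := by
    rintro rfl
    apply hc1
    apply hinj
    rw [hc, one_smul, map_one]
  rw [h, map_mul, hc, mul_smul_comm, mul_one, map_smul, smul_eq_mul] at htr
  have : (ζ - 1) * LinearMap.trace ℂ W (σ g) = 0 := by rw [sub_mul, htr, one_mul, sub_self]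
  exact (mul_eq_zero.mp this).resolve_left (sub_ne_zero.mpr hζ)

/-- Cauchy-Schwarz for a family of pairwise trace-orthogonal elements with the same trace. -/
theorem bessel {Q : Type*} [Fintype Q] (σ : Representation ℂ Γ W) (hσ : IsUni σ) (s : Q → Γ)
    (τ : ℂ) (h1 : ∀ q, LinearMap.trace ℂ W (σ (s q)) = τ)
    (h2 : ∀ q q', q ≠ q' → LinearMap.trace ℂ W (σ ((s q)⁻¹ * s q')) = 0) :
    ‖τ‖ ^ 2 * Fintype.card Q ≤ (finrank ℂ W : ℝ) ^ 2 := by
  classical
  rcases Nat.eq_zero_or_pos (Fintype.card Q) with h0 | hpos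
  · rw [h0]; simp
  set b := stdOrthonormalBasis ℂ W
  set d := finrank ℂ W
  set A : W →ₗ[ℂ] W := ∑ q, σ (s q) with hA
  have e1 : ∑ i, ⟪b i, A (b i)⟫_ℂ = Fintype.card Q * τ := by
    rw [← LinearMap.trace_eq_sum_inner, hA, map_sum]
    simp [h1]
  have e2 : ∑ i, ⟪A (b i), A (b i)⟫_ℂ = Fintype.card Q * d := by
    simp_rw [hA, LinearMap.sum_apply, sum_inner, inner_sum, hσ.adj]
    rw [sum_comm]
    have : ∀ q, ∑ i, ∑ q', ⟪b i, σ ((s q)⁻¹ * s q') (b i)⟫_ℂ = d := by
      intro q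
      rw [sum_comm]
      simp_rw [← LinearMap.trace_eq_sum_inner]
      rw [sum_eq_single q]
      · rw [inv_mul_cancel, map_one, LinearMap.trace_one]
      · intro q' _ hq
        exact h2 q q' hq.symm
      · simp
    simp_rw [this]
    simp
  have e3 : ∑ i, ‖A (b i)‖ ^ 2 = Fintype.card Q * (d : ℝ) := by
    simp_rw [inner_self_eq_norm_sq_to_K] at e2
    apply Complex.ofReal_injective
    push_cast
    exact e2
  have e4 : (Fintype.card Q : ℝ) * ‖τ‖ ≤ ∑ i, ‖A (b i)‖ := by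
    have : (Fintype.card Q : ℝ) * ‖τ‖ = ‖∑ i, ⟪b i, A (b i)⟫_ℂ‖ := by
      rw [e1, norm_mul, Complex.norm_natCast]
    rw [this]
    refine (norm_sum_le _ _).trans (sum_le_sum fun i _ => ?_)
    refine (norm_inner_le_norm _ _).trans ?_
    rw [b.orthonormal.1 i, one_mul]
  have e5 : (∑ i, ‖A (b i)‖) ^ 2 ≤ d * ∑ i, ‖A (b i)‖ ^ 2 := by
    have := sq_sum_le_card_mul_sum_sq (s := univ) (f := fun i => ‖A (b i)‖)
    simpa using this
  have hq : (0 : ℝ) < Fintype.card Q := by exact_mod_cast hpos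
  have e6 : ((Fintype.card Q : ℝ) * ‖τ‖) ^ 2 ≤ d * (Fintype.card Q * (d : ℝ)) := by
    rw [← e3]
    exact (pow_le_pow_left₀ (by positivity) e4 2).trans e5
  have : (Fintype.card Q : ℝ) * (‖τ‖ ^ 2 * Fintype.card Q) ≤ Fintype.card Q * (d : ℝ) ^ 2 := by
    nlinarith
  exact le_of_mul_le_mul_left this hq

omit [FiniteDimensional ℂ W] in
theorem central_of_scalar (σ : Representation ℂ Γ W) (hinj : Function.Injective σ) (a : Γ)
    (ζ : ℂ) (h : σ a = ζ • 1) (g : Γ) : g * a = a * g := by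
  apply hinj
  rw [map_mul, map_mul, h]
  simp

omit [FiniteDimensional ℂ W] in
/-- Adjoining one element that is central modulo the centre. -/
theorem scalar_of_comm_central (σ : Representation ℂ Γ W)
    (hQP : ∀ A : Subgroup Γ, A.Normal → (∀ a ∈ A, ∀ b ∈ A, a * b = b * a) →
      ∀ a ∈ A, ∃ ζ : ℂ, σ a = ζ • 1)
    (z : Γ) (hz : ∀ g, g * z * g⁻¹ * z⁻¹ ∈ Subgroup.center Γ) : ∃ ζ : ℂ, σ z = ζ • 1 := by
  let A : Subgroup Γ :=
    { carrier := {a | ∃ (k : ℤ) (c : Γ), c ∈ Subgroup.center Γ ∧ a = c * z ^ k}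
      mul_mem' := by
        rintro _ _ ⟨k, c, hc, rfl⟩ ⟨k', c', hc', rfl⟩
        refine ⟨k + k', c * c', mul_mem hc hc', ?_⟩
        rw [zpow_add, mul_assoc, ← mul_assoc (z ^ k), Subgroup.mem_center_iff.mp hc' (z ^ k)]
        group
      one_mem' := ⟨0, 1, one_mem _, by simp⟩
      inv_mem' := by
        rintro _ ⟨k, c, hc, rfl⟩
        refine ⟨-k, c⁻¹, inv_mem hc, ?_⟩
        rw [mul_inv_rev, zpow_neg, Subgroup.mem_center_iff.mp (inv_mem hc)] }
  refine hQP A ⟨?_⟩ ?_ z ⟨1, 1, one_mem _, by simp⟩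
  · rintro _ ⟨k, c, hc, rfl⟩ g
    have h1 : g * z * g⁻¹ = (g * z * g⁻¹ * z⁻¹) * z := by group
    have h2 : Commute (g * z * g⁻¹ * z⁻¹) z := (Subgroup.mem_center_iff.mp (hz g) z).symm
    refine ⟨k, c * (g * z * g⁻¹ * z⁻¹) ^ k, mul_mem hc (zpow_mem (hz g) k), ?_⟩
    rw [mul_assoc c, ← h2.mul_zpow, ← h1, conj_zpow, ← mul_assoc g c,
      Subgroup.mem_center_iff.mp hc g]
    group
  · rintro _ ⟨k, c, hc, rfl⟩ _ ⟨k', c', hc', rfl⟩
    have e1 := Subgroup.mem_center_iff.mp hc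
    have e2 := Subgroup.mem_center_iff.mp hc'
    calc c * z ^ k * (c' * z ^ k') = c * (z ^ k * c') * z ^ k' := by group
      _ = c * c' * (z ^ k * z ^ k') := by rw [e2]; group
      _ = c' * c * (z ^ k' * z ^ k) := by rw [e1 c', ← zpow_add, ← zpow_add, add_comm]
      _ = c' * (c * z ^ k') * z ^ k := by group
      _ = c' * z ^ k' * (c * z ^ k) := by rw [← e1]; group

omit [FiniteDimensional ℂ W] in
theorem scalar_of_nilpotent (σ : Representation ℂ Γ W) (hinj : Function.Injective σ)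
    (hQP : ∀ A : Subgroup Γ, A.Normal → (∀ a ∈ A, ∀ b ∈ A, a * b = b * a) →
      ∀ a ∈ A, ∃ ζ : ℂ, σ a = ζ • 1)
    (c : ℕ) (hc : (⊤ : Subgroup Γ).lowerCentralSeries c ≤ Subgroup.center Γ) (t : Γ) :
    ∃ ζ : ℂ, σ t = ζ • 1 := by
  have key : ∀ i, (⊤ : Subgroup Γ).lowerCentralSeries (i + 1) ≤ Subgroup.center Γ →
      (⊤ : Subgroup Γ).lowerCentralSeries i ≤ Subgroup.center Γ := by
    intro i hi z hz
    obtain ⟨ζ, hζ⟩ := scalar_of_comm_central σ hQP z fun g => by
      apply hi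
      rw [Subgroup.lowerCentralSeries_succ, Subgroup.commutator_comm]
      exact Subgroup.commutator_mem_commutator (Subgroup.mem_top g) hz
    exact Subgroup.mem_center_iff.mpr (central_of_scalar σ hinj z ζ hζ)
  have h0 : (⊤ : Subgroup Γ).lowerCentralSeries 0 ≤ Subgroup.center Γ := by
    induction c with
    | zero => exact hc
    | succ c ih => exact ih (key c hc)
  refine scalar_of_comm_central σ hQP t fun g => h0 (Subgroup.mem_top _)

theorem trace_small [Finite Γ] [Group.IsSolvable Γ] (σ : Representation ℂ Γ W) (hσ : IsUni σ)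
    (hinj : Function.Injective σ)
    (hQP : ∀ A : Subgroup Γ, A.Normal → (∀ a ∈ A, ∀ b ∈ A, a * b = b * a) →
      ∀ a ∈ A, ∃ ζ : ℂ, σ a = ζ • 1)
    (P : ℕ) (hP : ∀ p : ℕ, p.Prime → p ∣ (Subgroup.center Γ).index → P < p) (t : Γ) :
    (∃ ζ : ℂ, σ t = ζ • 1) ∨
      ‖LinearMap.trace ℂ W (σ t)‖ ^ 2 * P ≤ (finrank ℂ W : ℝ) ^ 2 := by
  classical
  by_cases hcen : t ∈ Subgroup.center Γ
  · left
    refine scalar_of_comm_central σ hQP t fun g => ?_
    rw [Subgroup.mem_center_iff.mp hcen g]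
    simp
  right
  have hex : ∃ i, ∀ n ∈ derivedSeries Γ i, n * t = t * n := by
    obtain ⟨i, hi⟩ := Group.IsSolvable.solvable (G := Γ)
    refine ⟨i, fun n hn => ?_⟩
    rw [hi, Subgroup.mem_bot] at hn
    rw [hn, one_mul, mul_one]
  have hpos : Nat.find hex ≠ 0 := by
    intro h0
    have := Nat.find_spec hex
    rw [h0] at this
    exact hcen (Subgroup.mem_center_iff.mpr fun g => this g (Subgroup.mem_top g))
  obtain ⟨i, hi⟩ := Nat.exists_eq_succ_of_ne_zero hpos
  have hN' : ∀ n ∈ derivedSeries Γ (i + 1), n * t = t * n := by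
    have := Nat.find_spec hex
    rwa [hi] at this
  have hN : ¬ ∀ n ∈ derivedSeries Γ i, n * t = t * n := Nat.find_min hex (by omega)
  set N := derivedSeries Γ i with hNdef
  set N' := derivedSeries Γ (i + 1) with hN'def
  have hNn : N.Normal := derivedSeries_normal Γ i
  have hN'n : N'.Normal := derivedSeries_normal Γ (i + 1)
  set L : Subgroup Γ := N ⊓ Subgroup.centralizer (N' : Set Γ) with hL
  have hLn : L.Normal := inferInstance
  have hZ : ∀ a ∈ L ⊓ Subgroup.centralizer (L : Set Γ), ∃ ζ : ℂ, σ a = ζ • 1 :=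
    hQP _ inferInstance fun a ha b hb => hb.2 a ha.1
  have hLtr : ∀ a ∈ L, (∃ ζ : ℂ, σ a = ζ • 1) ∨ LinearMap.trace ℂ W (σ a) = 0 := by
    intro a ha
    by_cases hc : a ∈ Subgroup.centralizer (L : Set Γ)
    · exact Or.inl (hZ a ⟨ha, hc⟩)
    right
    rw [Subgroup.mem_centralizer_iff] at hc
    push Not at hc
    obtain ⟨b, hb, hab⟩ := hc
    have hcN' : a⁻¹ * b * a * b⁻¹ ∈ N' := by
      have := Subgroup.commutator_mem_commutator (inv_mem ha.1) hb.1
      rw [commutatorElement_def, inv_inv] at this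
      exact this
    have hcL : a⁻¹ * b * a * b⁻¹ ∈ L :=
      mul_mem (mul_mem (mul_mem (inv_mem ha) hb) ha) (inv_mem hb)
    obtain ⟨ζ, hζ⟩ := hZ _ ⟨hcL, fun l hl => (hl.2 _ hcN').symm⟩
    refine trace_eq_zero_of_conj σ hinj a (b * a * b⁻¹) _ ζ hζ ?_ (by group) (trace_conj σ a b)
    intro h1
    apply hab
    calc b * a = a * (a⁻¹ * b * a * b⁻¹) * b := by group
      _ = a * b := by rw [h1, mul_one]
  have htC : t ∈ Subgroup.centralizer (N' : Set Γ) := fun n hn => hN' n hn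
  set C : Subgroup Γ := Subgroup.centralizer {t} with hC
  let Q := N ⧸ C.subgroupOf N
  have : Fintype Q := Fintype.ofFinite Q
  let s : Q → Γ := fun q => (q.out : Γ) * t * (q.out : Γ)⁻¹
  have hsL : ∀ q q', (s q)⁻¹ * s q' ∈ L := by
    intro q q'
    refine Subgroup.mem_inf.mpr
      ⟨?_, mul_mem (inv_mem (Subgroup.Normal.conj_mem inferInstance _ htC _))
      (Subgroup.Normal.conj_mem inferInstance _ htC _)⟩
    have e : (s q)⁻¹ * s q' = (q.out : Γ) * (t⁻¹ * ((q.out : Γ)⁻¹ * (q'.out : Γ)) * t⁻¹⁻¹) *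
        (q'.out : Γ)⁻¹ := by
      simp only [s]; group
    rw [e]
    exact mul_mem (mul_mem q.out.2 (hNn.conj_mem _ (mul_mem (inv_mem q.out.2) q'.out.2) _))
      (inv_mem q'.out.2)
  have hsinj : ∀ q q', (s q)⁻¹ * s q' = 1 → q = q' := by
    intro q q' h
    rw [← QuotientGroup.out_eq' q, ← QuotientGroup.out_eq' q', QuotientGroup.eq,
      Subgroup.mem_subgroupOf]
    refine Subgroup.mem_centralizer_singleton_iff.mpr ?_
    have h' : s q = s q' := inv_mul_eq_one.mp h
    simp only [s] at h'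
    push_cast
    calc (q.out : Γ)⁻¹ * q'.out * t
        = (q.out : Γ)⁻¹ * (q'.out * t * (q'.out : Γ)⁻¹) * q'.out := by group
      _ = t * ((q.out : Γ)⁻¹ * q'.out) := by rw [← h']; group
  have hstr : ∀ q, LinearMap.trace ℂ W (σ (s q)) = LinearMap.trace ℂ W (σ t) :=
    fun q => trace_conj σ t _
  by_cases hsc : ∃ q q', q ≠ q' ∧ ∃ ζ : ℂ, σ ((s q)⁻¹ * s q') = ζ • 1
  · obtain ⟨q, q', hne, ζ, hζ⟩ := hsc
    have := trace_eq_zero_of_conj σ hinj (s q) (s q') _ ζ hζ (fun h => hne (hsinj q q' h))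
      (by group) (by rw [hstr, hstr])
    rw [hstr] at this
    rw [this]
    simp
  have hb := bessel σ hσ s _ hstr fun q q' hne =>
    (hLtr _ (hsL q q')).resolve_left fun h => hsc ⟨q, q', hne, h⟩
  have hcard : Fintype.card Q = C.relIndex N := by
    rw [Subgroup.relIndex, Subgroup.index, Nat.card_eq_fintype_card]
  have hne1 : C.relIndex N ≠ 1 := by
    intro h1
    rw [Subgroup.relIndex_eq_one] at h1
    exact hN fun n hn => Subgroup.mem_centralizer_singleton_iff.mp (h1 hn)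
  have hdvd : C.relIndex N ∣ (Subgroup.center Γ).index :=
    (Subgroup.relIndex_dvd_of_le_left N (Subgroup.center_le_centralizer _)).trans
      (Subgroup.relIndex_dvd_index_of_normal _ _)
  have hP' : P ≤ Fintype.card Q := by
    have h1 := hP _ (Nat.minFac_prime hne1) ((Nat.minFac_dvd _).trans hdvd)
    have h2 : 0 < C.relIndex N := hcard ▸ Fintype.card_pos
    have h3 := Nat.minFac_le h2
    omega
  refine le_trans ?_ hb
  gcongr

end Pool.Agent.Work.MP_11a08a_al
end

-- merged part: Pool.Agent.Work.MP_11a08a_al.Blocks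
section
/-!
Minimal blocks of imprimitivity of a unitary representation.
-/

set_option autoImplicit false

open Finset Module
open scoped InnerProductSpace

namespace Pool.Agent.Work.MP_11a08a_al

variable {G E : Type*} [Group G] [NormedAddCommGroup E] [InnerProductSpace ℂ E]

theorem map_map_rep (ρ : Representation ℂ G E) (W : Submodule ℂ E) (g h : G) :
    (W.map (ρ h)).map (ρ g) = W.map (ρ (g * h)) := by
  rw [map_mul, Module.End.mul_eq_comp, Submodule.map_comp]

theorem map_one_rep (ρ : Representation ℂ G E) (W : Submodule ℂ E) : W.map (ρ 1) = W := by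
  rw [map_one, Module.End.one_eq_id, Submodule.map_id]

theorem rep_apply_apply (ρ : Representation ℂ G E) (g h : G) (v : E) :
    ρ g (ρ h v) = ρ (g * h) v := by
  rw [map_mul, Module.End.mul_apply]

theorem rep_inj (ρ : Representation ℂ G E) (g : G) : Function.Injective (ρ g) := by
  intro v w h
  have := congrArg (ρ g⁻¹) h
  rwa [rep_apply_apply, rep_apply_apply, inv_mul_cancel, map_one] at this

/-- A nonzero subspace whose translates are equal or orthogonal to it. -/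
def Good (ρ : Representation ℂ G E) (W : Submodule ℂ E) : Prop :=
  W ≠ ⊥ ∧ ∀ g, W.map (ρ g) = W ∨ ∀ v ∈ W, ∀ w ∈ W, ⟪v, ρ g w⟫_ℂ = 0

/-- A minimal such subspace. -/
def MinGood (ρ : Representation ℂ G E) (W : Submodule ℂ E) : Prop :=
  Good ρ W ∧ ∀ W' ≤ W, Good ρ W' → W' = W

theorem Good.map {ρ : Representation ℂ G E} (hρ : IsUni ρ) {W : Submodule ℂ E} (h : Good ρ W)
    (g : G) : Good ρ (W.map (ρ g)) := by
  refine ⟨fun h0 => h.1 ?_, fun t => ?_⟩
  · have := congrArg (Submodule.map (ρ g⁻¹)) h0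
    rwa [map_map_rep, inv_mul_cancel, map_one_rep, Submodule.map_bot] at this
  · rcases h.2 (g⁻¹ * t * g) with h1 | h1
    · left
      rw [map_map_rep]
      conv_rhs => rw [← h1, map_map_rep]
      congr 2
      group
    · right
      rintro _ ⟨v, hv, rfl⟩ _ ⟨w, hw, rfl⟩
      rw [rep_apply_apply, hρ.adj, ← mul_assoc]
      exact h1 v hv w hw

theorem MinGood.map {ρ : Representation ℂ G E} (hρ : IsUni ρ) {W : Submodule ℂ E}
    (h : MinGood ρ W) (g : G) : MinGood ρ (W.map (ρ g)) := by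
  refine ⟨h.1.map hρ g, fun W' hW' hg => ?_⟩
  have h1 : W'.map (ρ g⁻¹) ≤ W := by
    have := Submodule.map_mono (f := ρ g⁻¹) hW'
    rwa [map_map_rep, inv_mul_cancel, map_one_rep] at this
  rw [← h.2 _ h1 (hg.map hρ g⁻¹), map_map_rep, mul_inv_cancel, map_one_rep]

theorem exists_minGood [FiniteDimensional ℂ E] (ρ : Representation ℂ G E) (U : Submodule ℂ E)
    (hU : U ≠ ⊥) (hinv : ∀ g, ∀ v ∈ U, ρ g v ∈ U) : ∃ W ≤ U, MinGood ρ W := by
  have hgood : Good ρ U := by
    refine ⟨hU, fun g => Or.inl (le_antisymm ?_ fun v hv => ?_)⟩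
    · rintro _ ⟨v, hv, rfl⟩
      exact hinv g v hv
    · exact ⟨ρ g⁻¹ v, hinv _ v hv, by rw [rep_apply_apply, mul_inv_cancel, map_one]; rfl⟩
  obtain ⟨W, hW, hmin⟩ := (wellFounded_lt (α := Submodule ℂ E)).has_min
    {W | W ≤ U ∧ Good ρ W} ⟨U, le_rfl, hgood⟩
  refine ⟨W, hW.1, hW.2, fun W' h1 h2 => ?_⟩
  by_contra hne
  exact hmin W' ⟨h1.trans hW.1, h2⟩ (lt_of_le_of_ne h1 hne)

/-- The stabiliser of a subspace. -/
def stab (ρ : Representation ℂ G E) (W : Submodule ℂ E) : Subgroup G where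
  carrier := {g | W.map (ρ g) = W}
  mul_mem' := by
    intro a b ha hb
    change W.map (ρ (a * b)) = W
    rw [← map_map_rep, hb, ha]
  one_mem' := map_one_rep ρ W
  inv_mem' := by
    intro a ha
    change W.map (ρ a⁻¹) = W
    conv_lhs => rw [← ha, map_map_rep, inv_mul_cancel, map_one_rep]

theorem stab_mem {ρ : Representation ℂ G E} {W : Submodule ℂ E} {g : G} (hg : g ∈ stab ρ W)
    {v : E} (hv : v ∈ W) : ρ g v ∈ W := by
  have : W.map (ρ g) = W := hg
  rw [← this]
  exact ⟨v, hv, rfl⟩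

theorem exists_common_eigen [FiniteDimensional ℂ E] (ρ : Representation ℂ G E)
    (W : Submodule ℂ E) (hW : W ≠ ⊥) (S : Finset G) (h1 : ∀ a ∈ S, ∀ w ∈ W, ρ a w ∈ W)
    (h2 : ∀ a ∈ S, ∀ b ∈ S, ∀ w ∈ W, ρ a (ρ b w) = ρ b (ρ a w)) :
    ∃ (χ : G → ℂ) (w : E), w ∈ W ∧ w ≠ 0 ∧ ∀ a ∈ S, ρ a w = χ a • w := by
  classical
  induction S using Finset.induction_on with
  | empty =>
    obtain ⟨w, hw, h0⟩ := (Submodule.ne_bot_iff W).mp hW
    exact ⟨0, w, hw, h0, by simp⟩
  | insert a S ha ih =>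
    obtain ⟨χ, w, hw, h0, hχ⟩ := ih (fun b hb => h1 b (mem_insert_of_mem hb))
      (fun b hb c hc => h2 b (mem_insert_of_mem hb) c (mem_insert_of_mem hc))
    let V : Submodule ℂ E :=
      { carrier := {v | v ∈ W ∧ ∀ b ∈ S, ρ b v = χ b • v}
        add_mem' := fun {x y} hx hy => ⟨add_mem hx.1 hy.1, fun b hb => by
          rw [map_add, hx.2 b hb, hy.2 b hb, smul_add]⟩
        zero_mem' := ⟨zero_mem _, by simp⟩
        smul_mem' := fun c x hx => ⟨W.smul_mem c hx.1, fun b hb => by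
          rw [map_smul, hx.2 b hb, smul_comm]⟩ }
    have hVa : ∀ v ∈ V, ρ a v ∈ V := fun v hv =>
      ⟨h1 a (mem_insert_self _ _) v hv.1, fun b hb => by
        rw [h2 b (mem_insert_of_mem hb) a (mem_insert_self _ _) v hv.1, hv.2 b hb, map_smul]⟩
    have : Nontrivial V := ⟨⟨⟨w, hw, hχ⟩, 0, fun h => h0 (congrArg Subtype.val h)⟩⟩
    obtain ⟨c, hc⟩ := Module.End.exists_eigenvalue ((ρ a).restrict hVa)
    obtain ⟨v, hv⟩ := hc.exists_hasEigenvector
    refine ⟨Function.update χ a c, v, v.2.1, fun h => hv.2 (Subtype.ext h), fun b hb => ?_⟩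
    rcases mem_insert.mp hb with rfl | hb
    · rw [Function.update_self]
      exact congrArg Subtype.val hv.apply_eq_smul
    · rw [Function.update_of_ne (ne_of_mem_of_not_mem hb ha)]
      exact v.2.2 b hb

theorem inner_eq_zero_of_eigen {ρ : Representation ℂ G E} (hρ : IsUni ρ) (a : G) (v w : E)
    (x y : ℂ) (hv : ρ a v = x • v) (hw : ρ a w = y • w) (hxy : x ≠ y) : ⟪v, w⟫_ℂ = 0 := by
  by_contra hne
  have hv0 : ⟪v, v⟫_ℂ ≠ 0 := by
    intro h
    rw [inner_self_eq_zero] at h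
    rw [h, inner_zero_left] at hne
    exact hne rfl
  have e1 := hρ a v v
  have e2 := hρ a v w
  rw [hv, inner_smul_left, inner_smul_right, ← mul_assoc] at e1
  rw [hv, hw, inner_smul_left, inner_smul_right, ← mul_assoc] at e2
  have e3 : (starRingEnd ℂ) x * x = 1 := mul_right_cancel₀ hv0 (by rw [e1, one_mul])
  have e4 : (starRingEnd ℂ) x * y = 1 := mul_right_cancel₀ hne (by rw [e2, one_mul])
  exact hxy (mul_left_cancel₀ (left_ne_zero_of_mul_eq_one e3) (e3.trans e4.symm))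

theorem MinGood.scalar [FiniteDimensional ℂ E] [Finite G] {ρ : Representation ℂ G E}
    (hρ : IsUni ρ) {W : Submodule ℂ E} (hW : MinGood ρ W) (S : Set G)
    (h1 : ∀ a ∈ S, a ∈ stab ρ W) (h2 : ∀ a ∈ S, ∀ h ∈ stab ρ W, h * a * h⁻¹ ∈ S)
    (h3 : ∀ a ∈ S, ∀ b ∈ S, ∀ w ∈ W, ρ a (ρ b w) = ρ b (ρ a w)) :
    ∀ a ∈ S, ∃ ζ : ℂ, ∀ w ∈ W, ρ a w = ζ • w := by
  have hS := Set.toFinite S
  obtain ⟨χ, w0, hw0, hne, hχ⟩ := exists_common_eigen ρ W hW.1.1 hS.toFinset
    (fun a ha w hw => stab_mem (h1 a (hS.mem_toFinset.mp ha)) hw)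
    (fun a ha b hb => h3 a (hS.mem_toFinset.mp ha) b (hS.mem_toFinset.mp hb))
  let V : Submodule ℂ E :=
    { carrier := {v | v ∈ W ∧ ∀ b ∈ S, ρ b v = χ b • v}
      add_mem' := fun {x y} hx hy => ⟨add_mem hx.1 hy.1, fun b hb => by
        rw [map_add, hx.2 b hb, hy.2 b hb, smul_add]⟩
      zero_mem' := ⟨zero_mem _, by simp⟩
      smul_mem' := fun c x hx => ⟨W.smul_mem c hx.1, fun b hb => by
        rw [map_smul, hx.2 b hb, smul_comm]⟩ }
  have hVW : V ≤ W := fun v hv => hv.1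
  have hconj : ∀ g ∈ stab ρ W, ∀ a ∈ S, ∀ w ∈ V, ρ a (ρ g w) = χ (g⁻¹ * a * g) • ρ g w := by
    intro g hg a ha w hw
    have := h2 a ha g⁻¹ (inv_mem hg)
    rw [inv_inv] at this
    rw [← map_smul, ← hw.2 _ this, rep_apply_apply, rep_apply_apply]
    congr 2
    group
  have hgood : Good ρ V := by
    refine ⟨(Submodule.ne_bot_iff V).mpr
      ⟨w0, ⟨hw0, fun b hb => hχ b (hS.mem_toFinset.mpr hb)⟩, hne⟩, fun g => ?_⟩
    rcases hW.1.2 g with hg | hg
    · have hg' : g ∈ stab ρ W := hg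
      by_cases hc : ∀ a ∈ S, χ (g⁻¹ * a * g) = χ a
      · left
        refine le_antisymm ?_ fun v hv => ?_
        · rintro _ ⟨w, hw, rfl⟩
          exact ⟨stab_mem hg' hw.1, fun a ha => by rw [hconj g hg' a ha w hw, hc a ha]⟩
        · refine ⟨ρ g⁻¹ v, ⟨stab_mem (inv_mem hg') hv.1, fun a ha => ?_⟩,
            by rw [rep_apply_apply, mul_inv_cancel, map_one]; rfl⟩
          rw [hconj g⁻¹ (inv_mem hg') a ha v hv, inv_inv, ← hc _ (h2 a ha g hg')]
          congr 2
          group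
      · right
        push Not at hc
        obtain ⟨a, ha, hc⟩ := hc
        intro v hv w hw
        exact inner_eq_zero_of_eigen hρ a _ _ _ _ (hv.2 a ha) (hconj g hg' a ha w hw) hc.symm
    · exact Or.inr fun v hv w hw => hg v hv.1 w hw.1
  have := hW.2 V hVW hgood
  intro a ha
  refine ⟨χ a, fun w hw => ?_⟩
  rw [← this] at hw
  exact hw.2 a ha

/-- The restriction of the representation to a subspace and its stabiliser. -/
def resStab (ρ : Representation ℂ G E) (W : Submodule ℂ E) : Representation ℂ (stab ρ W) W where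
  toFun h := (ρ h).restrict fun _ hv => stab_mem h.2 hv
  map_one' := by ext; simp
  map_mul' x y := by ext; simp

/-- The class of groups treated: abelian-by-nilpotent, or abelian-by-solvable with only primes
larger than `P` dividing the index. -/
def Cls (G : Type*) [Group G] (P : ℕ) : Prop :=
  ∃ (A : Subgroup G) (_ : A.Normal), (∀ a ∈ A, ∀ b ∈ A, a * b = b * a) ∧
    (Group.IsNilpotent (G ⧸ A) ∨
      (Group.IsSolvable (G ⧸ A) ∧ ∀ p : ℕ, p.Prime → p ∣ A.index → P < p))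

theorem MinGood.dichotomy [FiniteDimensional ℂ E] [Finite G] {ρ : Representation ℂ G E}
    (hρ : IsUni ρ) {P : ℕ} (hG : Cls G P) {W : Submodule ℂ E} (hW : MinGood ρ W) (t : G) :
    (∃ ζ : ℂ, ∀ w ∈ W, ρ t w = ζ • w) ∨
      ‖∑ i, ⟪(stdOrthonormalBasis ℂ W i : E), ρ t (stdOrthonormalBasis ℂ W i)⟫_ℂ‖ ^ 2 * P ≤
        (finrank ℂ W : ℝ) ^ 2 := by
  rcases hW.1.2 t with ht | ht
  swap
  · right
    rw [sum_eq_zero fun i _ => ht _ (Submodule.coe_mem _) _ (Submodule.coe_mem _)]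
    simp
  have ht' : t ∈ stab ρ W := ht
  set H := stab ρ W with hH
  set σ0 := resStab ρ W with hσ0
  let Γ := H ⧸ σ0.ker
  let π : H →* Γ := QuotientGroup.mk' σ0.ker
  have hπ : Function.Surjective π := QuotientGroup.mk'_surjective _
  let σ : Representation ℂ Γ W := QuotientGroup.lift σ0.ker σ0 le_rfl
  have hσπ : ∀ (h : H) (w : W), (σ (π h) w : E) = ρ h w := fun _ _ => rfl
  have hinj : Function.Injective σ := (QuotientGroup.injective_lift_iff _ _ _).mpr rfl
  have huni : IsUni σ := by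
    intro g v w
    obtain ⟨h, rfl⟩ := hπ g
    rw [Submodule.coe_inner, hσπ, hσπ, hρ, Submodule.coe_inner]
  have hsc : ∀ (h : H) (ζ : ℂ), σ (π h) = ζ • 1 ↔ ∀ w ∈ W, ρ h w = ζ • w := by
    intro h ζ
    constructor
    · intro e w hw
      rw [← hσπ h ⟨w, hw⟩, e]
      rfl
    · intro e
      ext w
      rw [hσπ, e w w.2]
      rfl
  have hQP : ∀ A : Subgroup Γ, A.Normal → (∀ a ∈ A, ∀ b ∈ A, a * b = b * a) →
      ∀ a ∈ A, ∃ ζ : ℂ, σ a = ζ • 1 := by
    intro A hA hcomm a ha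
    obtain ⟨h, rfl⟩ := hπ a
    obtain ⟨ζ, hζ⟩ := hW.scalar hρ {g | ∃ hg : g ∈ H, π ⟨g, hg⟩ ∈ A} (fun g hg => hg.1)
      (fun g hg k hk => ⟨mul_mem (mul_mem hk hg.1) (inv_mem hk), by
        have := hA.conj_mem _ hg.2 (π ⟨k, hk⟩)
        rwa [← map_inv, ← map_mul, ← map_mul] at this⟩)
      (fun g hg k hk w hw => by
        have e := hcomm _ hg.2 _ hk.2
        rw [← map_mul, ← map_mul] at e
        rw [rep_apply_apply, rep_apply_apply]
        have e1 := hσπ (⟨g, hg.1⟩ * ⟨k, hk.1⟩) ⟨w, hw⟩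
        have e2 := hσπ (⟨k, hk.1⟩ * ⟨g, hg.1⟩) ⟨w, hw⟩
        rw [e] at e1
        exact e1.symm.trans e2) h ⟨h.2, ha⟩
    exact ⟨ζ, (hsc h ζ).mpr hζ⟩
  obtain ⟨A, hAn, hAc, hcase⟩ := hG
  have hAcen : (A.subgroupOf H).map π ≤ Subgroup.center Γ := by
    intro a ha
    obtain ⟨ζ, hζ⟩ := hQP _ (Subgroup.Normal.map inferInstance π hπ) (by
      rintro _ ⟨x, hx, rfl⟩ _ ⟨y, hy, rfl⟩
      rw [← map_mul, ← map_mul]
      congr 1
      exact Subtype.ext (hAc _ hx _ hy)) a ha
    exact Subgroup.mem_center_iff.mpr (central_of_scalar σ hinj a ζ hζ)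
  rcases hcase with hnil | ⟨hsol, hP⟩
  · left
    obtain ⟨c, hc⟩ := Subgroup.nilpotent_iff_lowerCentralSeries.mp hnil
    have h1 : (⊤ : Subgroup G).lowerCentralSeries c ≤ A := by
      have := Subgroup.map_lowerCentralSeries (S := (⊤ : Subgroup G)) (QuotientGroup.mk' A) c
      rw [Subgroup.map_top_of_surjective _ (QuotientGroup.mk'_surjective A), hc,
        Subgroup.map_eq_bot_iff, QuotientGroup.ker_mk'] at this
      exact this
    have h2 : (⊤ : Subgroup H).lowerCentralSeries c ≤ A.subgroupOf H := by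
      intro x hx
      have h3 : H.subtype x ∈ ((⊤ : Subgroup H).lowerCentralSeries c).map H.subtype :=
        ⟨x, hx, rfl⟩
      rw [Subgroup.top_subtype_lowerCentralSeries] at h3
      exact h1 (Subgroup.lowerCentralSeries_mono c le_top h3)
    have h3 : (⊤ : Subgroup Γ).lowerCentralSeries c ≤ Subgroup.center Γ := by
      rw [← Subgroup.map_top_of_surjective π hπ, ← Subgroup.map_lowerCentralSeries]
      exact (Subgroup.map_mono h2).trans hAcen
    obtain ⟨ζ, hζ⟩ := scalar_of_nilpotent σ hinj hQP c h3 (π ⟨t, ht'⟩)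
    exact ⟨ζ, (hsc _ ζ).mp hζ⟩
  · have hA : Group.IsSolvable A := Group.isSolvable_of_comm fun a b =>
      Subtype.ext (hAc _ a.2 _ b.2)
    have hGs : Group.IsSolvable G := (Group.isSolvable_iff_subgroup_quotient A).mpr ⟨hA, hsol⟩
    have hdvd : (Subgroup.center Γ).index ∣ A.index :=
      (Subgroup.index_dvd_of_le hAcen).trans ((Subgroup.index_map_dvd _ hπ).trans
        (Subgroup.relIndex_dvd_index_of_normal A H))
    rcases trace_small σ huni hinj hQP P (fun p hp h => hP p hp (h.trans hdvd)) (π ⟨t, ht'⟩) with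
      ⟨ζ, hζ⟩ | h
    · exact Or.inl ⟨ζ, (hsc _ ζ).mp hζ⟩
    · right
      rw [LinearMap.trace_eq_sum_inner _ (stdOrthonormalBasis ℂ W)] at h
      exact h

end Pool.Agent.Work.MP_11a08a_al
end

-- merged part: Pool.Agent.Work.MP_11a08a_al.Mann
section
/-!
Mann's theorem in coset form: an integer relation between at most `k` roots of unity splits
along the cosets of the group of `k!`-th roots of unity.
-/

set_option autoImplicit false

open Finset Polynomial

namespace Pool.Agent.Work.MP_11a08a_al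

/-- Galois conjugation of an integer relation between roots of unity. -/
theorem galois_pow {ι : Type*} (s : Finset ι) (m : ℕ) (hm : 0 < m) (c : ι → ℤ) (z : ι → ℂ)
    (hz : ∀ i ∈ s, z i ^ m = 1) (h : ∑ i ∈ s, (c i : ℂ) * z i = 0) (j : ℕ) (hj : j.Coprime m) :
    ∑ i ∈ s, (c i : ℂ) * z i ^ j = 0 := by
  classical
  have : NeZero m := ⟨hm.ne'⟩
  have hω := Complex.isPrimitiveRoot_exp m hm.ne'
  set ω := Complex.exp (2 * Real.pi * Complex.I / m) with hωdef
  have hex : ∀ i, ∃ e : ℕ, i ∈ s → ω ^ e = z i := by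
    intro i
    by_cases hi : i ∈ s
    · obtain ⟨e, -, he⟩ := hω.eq_pow_of_pow_eq_one (hz i hi)
      exact ⟨e, fun _ => he⟩
    · exact ⟨0, fun h => absurd h hi⟩
  choose e he using hex
  set f : ℚ[X] := ∑ i ∈ s, C (c i : ℚ) * X ^ e i with hf
  have hev : ∀ x : ℂ, aeval x f = ∑ i ∈ s, (c i : ℂ) * x ^ e i := by
    intro x
    simp [hf, map_sum]
  have h1 : aeval ω f = 0 := by
    rw [hev, ← h]
    exact sum_congr rfl fun i hi => by rw [he i hi]
  have h2 : minpoly ℚ ω ∣ f := minpoly.dvd ℚ ω h1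
  have hωj : IsPrimitiveRoot (ω ^ j) m := hω.pow_of_coprime j hj
  rw [← cyclotomic_eq_minpoly_rat hω hm, cyclotomic_eq_minpoly_rat hωj hm] at h2
  obtain ⟨g, hg⟩ := h2
  have h3 : aeval (ω ^ j) f = 0 := by rw [hg, map_mul, minpoly.aeval, zero_mul]
  rw [hev] at h3
  rw [← h3]
  refine sum_congr rfl fun i hi => ?_
  rw [← he i hi, ← pow_mul, ← pow_mul, mul_comm (e i) j]

/-- The step `δ` of an arithmetic progression of exponents coprime to `m`. -/
theorem exists_step (k m : ℕ) (hm : 0 < m) :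
    ∃ u : ℕ, u.Coprime m ∧ ∀ s < k, (1 + s * (k.factorial * u)).Coprime m := by
  classical
  have : NeZero m := ⟨hm.ne'⟩
  set ml := ∏ p ∈ m.primeFactors.filter (fun p => k < p), p with hml
  have hdvd : ml ∣ m := by
    refine dvd_trans ?_ (Nat.prod_primeFactors_dvd m)
    exact prod_dvd_prod_of_subset _ _ _ (filter_subset _ _)
  have hcop : k.factorial.Coprime ml := by
    rw [hml]
    refine Nat.Coprime.prod_right fun p hp => ?_
    rw [mem_filter] at hp
    have hpp := Nat.prime_of_mem_primeFactors hp.1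
    rw [Nat.coprime_comm, Nat.Prime.coprime_iff_not_dvd hpp, hpp.dvd_factorial]
    omega
  obtain ⟨w, hw⟩ := ZMod.unitsMap_surjective hdvd (ZMod.unitOfCoprime _ hcop)⁻¹
  refine ⟨(w : ZMod m).val, ZMod.val_coe_unit_coprime w, ?_⟩
  have hkey : ((k.factorial * (w : ZMod m).val : ℕ) : ZMod ml) = 1 := by
    have h1 : (((w : ZMod m).val : ℕ) : ZMod ml) = ((ZMod.unitsMap hdvd w : (ZMod ml)ˣ) : ZMod ml) := by
      rw [ZMod.unitsMap_val, ZMod.natCast_val]
    push_cast
    rw [h1, hw, ← ZMod.coe_unitOfCoprime _ hcop, Units.mul_inv]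
  intro s hs
  rw [Nat.coprime_comm]
  refine Nat.Coprime.symm (Nat.coprime_of_dvd fun p hp h1 h2 => ?_)
  by_cases hpk : k < p
  · have hpml : p ∣ ml := by
      rw [hml]
      refine dvd_prod_of_mem _ ?_
      rw [mem_filter, Nat.mem_primeFactors]
      exact ⟨⟨hp, h2, hm.ne'⟩, hpk⟩
    have h3 : k.factorial * (w : ZMod m).val ≡ 1 [MOD ml] := by
      rw [← ZMod.natCast_eq_natCast_iff]
      simpa using hkey
    have h4 : 1 + s * (k.factorial * (w : ZMod m).val) ≡ 1 + s * 1 [MOD p] :=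
      ((h3.of_dvd hpml).mul_left s).add_left 1
    have h5 : p ∣ 1 + s * 1 := (h4.dvd_iff (dvd_refl p)).mp h1
    have := Nat.le_of_dvd (by omega) h5
    omega
  · have h3 : p ∣ k.factorial := (hp.dvd_factorial).mpr (by omega)
    have h4 : p ∣ s * (k.factorial * (w : ZMod m).val) := (h3.mul_right _).mul_left _
    have h5 : p ∣ 1 := (Nat.dvd_add_left h4).mp h1
    exact hp.one_lt.ne' (Nat.dvd_one.mp h5)

/-- Mann's theorem, coset form. -/
theorem mann {ι : Type*} (s : Finset ι) (k m : ℕ) (hm : 0 < m) (hs : s.card ≤ k) (c : ι → ℤ)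
    (z : ι → ℂ) (hz : ∀ i ∈ s, z i ^ m = 1) (h : ∑ i ∈ s, (c i : ℂ) * z i = 0)
    (J : ι → Prop) [DecidablePred J]
    (hJ : ∀ i ∈ s, ∀ j ∈ s, J i → ¬ J j → z i ^ k.factorial ≠ z j ^ k.factorial) :
    ∑ i ∈ s.filter J, (c i : ℂ) * z i = 0 := by
  classical
  obtain ⟨u, hu, hprog⟩ := exists_step k m hm
  set δ := k.factorial * u with hδ
  have hpow : ∀ t < k, ∑ i ∈ s, ((c i : ℂ) * z i) * (z i ^ δ) ^ t = 0 := by
    intro t ht
    rw [← galois_pow s m hm c z hz h _ (hprog t ht)]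
    refine sum_congr rfl fun i _ => ?_
    rw [pow_add, pow_one, ← pow_mul, mul_comm δ t, mul_assoc]
  have hpoly : ∀ g : ℂ[X], g.degree < k →
      ∑ i ∈ s, ((c i : ℂ) * z i) * g.eval (z i ^ δ) = 0 := by
    intro g hg
    by_cases hg0 : g = 0
    · simp [hg0]
    have hg' : g.natDegree < k := (natDegree_lt_iff_degree_lt hg0).mpr hg
    simp_rw [eval_eq_sum_range' hg', mul_sum]
    rw [sum_comm]
    refine sum_eq_zero fun t ht => ?_
    have := hpow t (mem_range.mp ht)
    calc ∑ i ∈ s, (c i : ℂ) * z i * (g.coeff t * (z i ^ δ) ^ t)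
        = g.coeff t * ∑ i ∈ s, ((c i : ℂ) * z i) * (z i ^ δ) ^ t := by
          rw [mul_sum]; exact sum_congr rfl fun i _ => by ring
      _ = 0 := by rw [this, mul_zero]
  have hne : ∀ i ∈ s, ∀ j ∈ s, J i → ¬ J j → z i ^ δ ≠ z j ^ δ := by
    intro i hi j hj h1 h2 heq
    apply hJ i hi j hj h1 h2
    have hzj : z j ≠ 0 := by
      intro h0
      have := hz j hj
      rw [h0, zero_pow hm.ne'] at this
      exact zero_ne_one this
    have e1 : ((z i / z j) ^ k.factorial) ^ u = 1 := by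
      rw [← pow_mul, ← hδ, div_pow, heq, div_self (pow_ne_zero _ hzj)]
    have e2 : ((z i / z j) ^ k.factorial) ^ m = 1 := by
      rw [← pow_mul, mul_comm, pow_mul, div_pow, hz i hi, hz j hj, div_one, one_pow]
    have e3 : (z i / z j) ^ k.factorial = 1 := by
      have := pow_gcd_eq_one.mpr ⟨e1, e2⟩
      rwa [hu.gcd_eq_one, pow_one] at this
    rw [div_pow, div_eq_one_iff_eq (pow_ne_zero _ hzj)] at e3
    exact e3
  set T : Finset ℂ := s.image (fun i => z i ^ δ) with hT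
  set r : ℂ → ℂ := fun x => if ∃ i ∈ s, J i ∧ z i ^ δ = x then 1 else 0 with hr
  have hinj : Set.InjOn (id : ℂ → ℂ) T := Function.injective_id.injOn
  have hdeg : (Lagrange.interpolate T id r).degree < k := by
    refine lt_of_lt_of_le (Lagrange.degree_interpolate_lt r hinj) ?_
    exact_mod_cast (card_image_le.trans hs)
  have := hpoly _ hdeg
  rw [← this, sum_filter]
  refine sum_congr rfl fun i hi => ?_
  have hmem : z i ^ δ ∈ T := mem_image_of_mem _ hi
  have hev := Lagrange.eval_interpolate_at_node r hinj hmem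
  simp only [id] at hev
  rw [hev]
  by_cases hJi : J i
  · have : r (z i ^ δ) = 1 := by
      simp only [hr]
      rw [if_pos ⟨i, hi, hJi, rfl⟩]
    rw [this, if_pos hJi, mul_one]
  · have : r (z i ^ δ) = 0 := by
      simp only [hr]
      rw [if_neg]
      rintro ⟨j, hj, hJj, he⟩
      exact hne j hj i hi hJj hJi he
    rw [this, if_neg hJi, mul_zero]

end Pool.Agent.Work.MP_11a08a_al
end

-- merged part: Pool.Agent.Work.MP_11a08a_al.Vanish
section
/-!
Vanishing sums `∑ α i * y i = 0` with `y i` zero or a root of unity split along a bounded set of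
ratios.
-/

set_option autoImplicit false

open Finset Polynomial Module

namespace Pool.Agent.Work.MP_11a08a_al

/-- The bound for the number of relevant ratios. -/
def ratioBound (q : ℕ) : ℕ := q.factorial.factorial * ((q * q.factorial) * (q * q.factorial))

theorem exists_matrix (q m : ℕ) (α : Fin q → ℂ) :
    ∃ (A : Matrix (Fin q) (Fin q) ℂ) (I : Set (Fin q)), A.det ≠ 0 ∧
      (∀ i r, A i r = 0 ∨ A i r ^ m = 1) ∧ (∀ r ∈ I, ∑ i, α i * A i r = 0) ∧
      (∀ y : Fin q → ℂ, ∃ c : Fin q → ℂ, ∀ k, y k = ∑ r, c r • A k r) ∧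
      ∀ y : Fin q → ℂ, (∀ i, y i = 0 ∨ y i ^ m = 1) → ∑ i, α i * y i = 0 →
        ∃ c : Fin q → ℂ, (∀ k, y k = ∑ r, c r • A k r) ∧ ∀ r, r ∉ I → c r = 0 := by
  classical
  set E : Set (Fin q → ℂ) := {y | ∀ i, y i = 0 ∨ y i ^ m = 1} with hE
  set S : Set (Fin q → ℂ) := {y | y ∈ E ∧ ∑ i, α i * y i = 0} with hS
  set b : Set (Fin q → ℂ) := (linearIndepOn_empty ℂ id).extend (Set.empty_subset S) with hb
  have hbi : LinearIndepOn ℂ id b := (linearIndepOn_empty ℂ id).linearIndepOn_extend _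
  have hbS : b ⊆ S := (linearIndepOn_empty ℂ id).extend_subset _
  have hSb : S ⊆ Submodule.span ℂ b := by
    simpa using (linearIndepOn_empty ℂ id).subset_span_extend (Set.empty_subset S)
  have hbE : b ⊆ E := fun y hy => (hbS hy).1
  have hEtop : ⊤ ≤ Submodule.span ℂ E := by
    rw [← (Pi.basisFun ℂ (Fin q)).span_eq]
    refine Submodule.span_mono ?_
    rintro _ ⟨j, rfl⟩ i
    by_cases h : i = j
    · right; subst h; simp
    · left; simp [h]
  let B0 := Basis.extendLe hbi hbE hEtop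
  let B : Basis (Fin q) ℂ (Fin q → ℂ) := B0.reindex (B0.indexEquiv (Pi.basisFun ℂ (Fin q)))
  have hrange : Set.range B = Set.range B0 := Basis.range_reindex _ _
  have hBE : ∀ r, B r ∈ E := fun r =>
    Basis.extendLe_subset hbi hbE hEtop (hrange ▸ Set.mem_range_self r)
  have hbB : b ⊆ Set.range B := hrange ▸ Basis.subset_extendLe hbi hbE hEtop
  have hrepr : ∀ y : Fin q → ℂ, ∀ k, y k = ∑ r, B.repr y r • B r k := by
    intro y k
    conv_lhs => rw [← B.sum_repr y]
    simp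
  refine ⟨Matrix.of fun i r => B r i, {r | B r ∈ b}, ?_, ?_, ?_, ?_, ?_⟩
  · have : IsUnit (Matrix.of fun i r => B r i) := by
      rw [← Matrix.linearIndependent_cols_iff_isUnit]
      exact B.linearIndependent
    exact ((Matrix.isUnit_iff_isUnit_det _).mp this).ne_zero
  · intro i r
    exact hBE r i
  · intro r hr
    exact (hbS hr).2
  · intro y
    exact ⟨B.repr y, hrepr y⟩
  · intro y hy h0
    refine ⟨B.repr y, hrepr y, fun r hr => ?_⟩
    have h1 : y ∈ Submodule.span ℂ (B '' {r | B r ∈ b}) := by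
      have : B '' {r | B r ∈ b} = b := by
        ext v
        constructor
        · rintro ⟨r, hr, rfl⟩; exact hr
        · intro hv
          obtain ⟨r, rfl⟩ := hbB hv
          exact ⟨r, hv, rfl⟩
      rw [this]
      exact hSb ⟨hy, h0⟩
    have h2 := B.repr_support_subset_of_mem_span _ h1
    by_contra hne
    exact hr (h2 (Finsupp.mem_support_iff.mpr hne))

theorem det_updateCol_expand (q : ℕ) (A : Matrix (Fin q) (Fin q) ℂ) (r : Fin q) (y : Fin q → ℂ) :
    (A.updateCol r y).det = ∑ σ : Equiv.Perm (Fin q), ((Equiv.Perm.sign σ : ℤ) : ℂ) *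
      (y (σ r) * ∏ i ∈ univ.erase r, A (σ i) i) := by
  rw [Matrix.det_apply']
  refine sum_congr rfl fun σ _ => ?_
  congr 1
  rw [← mul_prod_erase univ _ (mem_univ r), Matrix.updateCol_self]
  congr 1
  exact prod_congr rfl fun i hi => Matrix.updateCol_ne (ne_of_mem_erase hi)

theorem vanish (q m : ℕ) (hm : 0 < m) (α : Fin q → ℂ) :
    ∃ R : Finset ℂ, R.card ≤ ratioBound q ∧
      ∀ y : Fin q → ℂ, (∀ i, y i = 0 ∨ y i ^ m = 1) → ∑ i, α i * y i = 0 →
        ∀ (J : Fin q → Prop) [DecidablePred J],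
          (∀ i j, J i → ¬ J j → y i ≠ 0 → y j ≠ 0 → y i / y j ∉ R) →
          ∑ i ∈ univ.filter J, α i * y i = 0 := by
  classical
  obtain ⟨A, I, hdet, hA, hI, hall, hsol⟩ := exists_matrix q m α
  set mon : Fin q × Equiv.Perm (Fin q) → ℂ := fun p => ∏ i ∈ univ.erase p.1, A (p.2 i) i
    with hmon
  set M := q.factorial.factorial with hM
  have hMpos : 0 < M := Nat.factorial_pos _
  refine ⟨((nthRootsFinset M (1 : ℂ)) ×ˢ (univ ×ˢ univ)).image
    (fun p : ℂ × (Fin q × Equiv.Perm (Fin q)) × (Fin q × Equiv.Perm (Fin q)) =>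
      p.1 * mon p.2.1 / mon p.2.2), ?_, ?_⟩
  · refine card_image_le.trans ?_
    rw [card_product, card_product, card_univ, Fintype.card_prod, Fintype.card_perm,
      Fintype.card_fin, ratioBound]
    refine Nat.mul_le_mul_right _ ?_
    rw [nthRootsFinset]
    exact (Multiset.toFinset_card_le _).trans (card_nthRoots _ _)
  intro y hy h0 J _ hJ
  obtain ⟨c, hc, hcI⟩ := hsol y hy h0
  set y' : Fin q → ℂ := fun i => if J i then y i else 0 with hy'
  obtain ⟨c', hc'⟩ := hall y'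
  have hupd : ∀ (x d : Fin q → ℂ), (∀ k, x k = ∑ r, d r • A k r) → ∀ r,
      (A.updateCol r x).det = d r * A.det := by
    intro x d hx r
    have : x = fun k => ∑ r, d r • A k r := funext hx
    rw [this, Matrix.det_updateCol_sum, smul_eq_mul]
  have hmonpow : ∀ p, mon p ≠ 0 → mon p ^ m = 1 := by
    intro p hp
    rw [hmon]
    simp only
    rw [← prod_pow]
    refine prod_eq_one fun i hi => ?_
    rcases hA (p.2 i) i with h | h
    · exact absurd (prod_eq_zero (f := fun i => A (p.2 i) i) hi h) hp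
    · exact h
  have hc'I : ∀ r, r ∉ I → c' r = 0 := by
    intro r hr
    have h1 : (A.updateCol r y).det = 0 := by rw [hupd y c hc r, hcI r hr, zero_mul]
    rw [det_updateCol_expand] at h1
    set z : Equiv.Perm (Fin q) → ℂ := fun σ => y (σ r) * mon (r, σ) with hz
    set s : Finset (Equiv.Perm (Fin q)) := univ.filter (fun σ => z σ ≠ 0) with hs
    have h2 : ∑ σ ∈ s, (((Equiv.Perm.sign σ : ℤ) : ℤ) : ℂ) * z σ = 0 := by
      rw [← h1, hs, sum_filter]
      refine sum_congr rfl fun σ _ => ?_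
      by_cases h : z σ = 0
      · rw [if_neg (not_not.mpr h)]
        change 0 = _ * z σ
        rw [h, mul_zero]
      · rw [if_pos h]
    have h3 := mann s q.factorial m hm
      ((card_le_univ _).trans (by rw [Fintype.card_perm, Fintype.card_fin]))
      (fun σ => (Equiv.Perm.sign σ : ℤ)) z ?_ h2 (fun σ => J (σ r)) ?_
    · have h4 : (A.updateCol r y').det = 0 := by
        rw [det_updateCol_expand, ← h3, hs, filter_filter, sum_filter]
        refine sum_congr rfl fun σ _ => ?_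
        by_cases hJσ : J (σ r)
        · by_cases h : z σ = 0
          · rw [if_neg (fun hh => hh.1 h)]
            simp only [hy', if_pos hJσ]
            change _ * z σ = 0
            rw [h, mul_zero]
          · rw [if_pos ⟨h, hJσ⟩]
            simp only [hy', if_pos hJσ]
            rfl
        · rw [if_neg (fun hh => hJσ hh.2)]
          simp only [hy', if_neg hJσ, zero_mul, mul_zero]
      rw [hupd y' c' hc' r] at h4
      exact (mul_eq_zero.mp h4).resolve_right hdet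
    · intro σ hσ
      have hσ' := (mem_filter.mp hσ).2
      rw [hz] at hσ' ⊢
      simp only at hσ' ⊢
      rw [mul_pow, hmonpow _ (right_ne_zero_of_mul hσ'),
        (hy _).resolve_left (left_ne_zero_of_mul hσ'), one_mul]
    · intro σ hσ τ hτ h5 h6 heq
      have hσ' : y (σ r) * mon (r, σ) ≠ 0 := (mem_filter.mp hσ).2
      have hτ' : y (τ r) * mon (r, τ) ≠ 0 := (mem_filter.mp hτ).2
      refine hJ _ _ h5 h6 (left_ne_zero_of_mul hσ') (left_ne_zero_of_mul hτ') ?_
      rw [mem_image]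
      refine ⟨(z σ / z τ, (r, τ), (r, σ)), ?_, ?_⟩
      · rw [mem_product]
        refine ⟨?_, by simp⟩
        rw [mem_nthRootsFinset hMpos, div_pow, hM, heq, div_self (pow_ne_zero _ hτ')]
      · have a1 := left_ne_zero_of_mul hτ'
        have a2 := right_ne_zero_of_mul hτ'
        have a3 := right_ne_zero_of_mul hσ'
        simp only [hz]
        field_simp
  calc ∑ i ∈ univ.filter J, α i * y i = ∑ i, α i * y' i := by
        rw [sum_filter]
        refine sum_congr rfl fun i _ => ?_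
        by_cases h : J i <;> simp [hy', h]
    _ = ∑ r, c' r * ∑ i, α i * A i r := by
        simp_rw [hc', mul_sum, smul_eq_mul]
        rw [sum_comm]
        exact sum_congr rfl fun r _ => sum_congr rfl fun i _ => by ring
    _ = 0 := by
        refine sum_eq_zero fun r _ => ?_
        by_cases h : r ∈ I
        · rw [hI r h, mul_zero]
        · rw [hc'I r h, zero_mul]

end Pool.Agent.Work.MP_11a08a_al
end

-- merged part: Pool.Agent.Work.MP_11a08a_al.Local
section
/-!
The local structure of a short combination on one block.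
-/

set_option autoImplicit false

open Finset Module
open scoped InnerProductSpace

namespace Pool.Agent.Work.MP_11a08a_al

open Classical in
theorem exists_reps {ι : Type*} [Fintype ι] (s : Setoid ι) :
    ∃ J : Finset ι, (∀ j ∈ J, ∀ j' ∈ J, s j j' → j = j') ∧ (∀ i, ∃ j ∈ J, s i j) ∧
      ∀ {M : Type} [AddCommMonoid M] (f : ι → M),
        ∑ i, f i = ∑ j ∈ J, ∑ i ∈ univ.filter (fun i => s i j), f i := by
  let r : ι → ι := fun i => (Quotient.mk s i).out
  have hr : ∀ i, s (r i) i := fun i => Quotient.mk_out (s := s) i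
  have hr2 : ∀ i j, s i j → r i = r j := fun i j h => by
    simp only [r]
    rw [Quotient.sound h]
  refine ⟨univ.image r, ?_, fun i => ⟨r i, mem_image_of_mem _ (mem_univ i), s.symm (hr i)⟩, ?_⟩
  · intro j hj j' hj' h
    obtain ⟨i, -, rfl⟩ := mem_image.mp hj
    obtain ⟨i', -, rfl⟩ := mem_image.mp hj'
    exact hr2 _ _ (s.trans (s.symm (hr i)) (s.trans h (hr i')))
  · intro M _ f
    rw [← sum_fiberwise_of_maps_to (g := r) fun i hi => mem_image_of_mem r hi]
    refine sum_congr rfl fun j hj => sum_congr ?_ fun _ _ => rfl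
    obtain ⟨i, -, rfl⟩ := mem_image.mp hj
    ext k
    simp only [mem_filter, mem_univ, true_and]
    constructor
    · intro h
      rw [← h]
      exact s.symm (hr k)
    · intro h
      exact hr2 _ _ (s.trans h (hr i))

variable {G E : Type} [Group G] [NormedAddCommGroup E] [InnerProductSpace ℂ E]

/-- `t` acts on `W` as the scalar `ζ`. -/
def Sc (ρ : Representation ℂ G E) (W : Submodule ℂ E) (t : G) (ζ : ℂ) : Prop :=
  ∀ w ∈ W, ρ t w = ζ • w

theorem Sc.one (ρ : Representation ℂ G E) (W : Submodule ℂ E) : Sc ρ W 1 1 := by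
  intro w _
  simp

theorem Sc.mul {ρ : Representation ℂ G E} {W : Submodule ℂ E} {s t : G} {x y : ℂ}
    (h1 : Sc ρ W s x) (h2 : Sc ρ W t y) : Sc ρ W (s * t) (x * y) := by
  intro w hw
  rw [← rep_apply_apply, h2 w hw, map_smul, h1 w hw, smul_smul, mul_comm]

theorem Sc.inv {ρ : Representation ℂ G E} {W : Submodule ℂ E} {t : G} {x : ℂ}
    (h : Sc ρ W t x) : Sc ρ W t⁻¹ x⁻¹ := by
  intro w hw
  have e : x • ρ t⁻¹ w = w := by
    rw [← map_smul, ← h w hw, rep_apply_apply, inv_mul_cancel, map_one]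
    rfl
  by_cases hx : x = 0
  · rw [hx, zero_smul] at e
    rw [← e]
    simp
  · conv_rhs => rw [← e, smul_smul, inv_mul_cancel₀ hx, one_smul]

theorem Sc.unique {ρ : Representation ℂ G E} {W : Submodule ℂ E} (hW : W ≠ ⊥) {t : G} {x y : ℂ}
    (h1 : Sc ρ W t x) (h2 : Sc ρ W t y) : x = y := by
  obtain ⟨w, hw, h0⟩ := (Submodule.ne_bot_iff W).mp hW
  exact smul_left_injective ℂ h0 ((h1 w hw).symm.trans (h2 w hw))

theorem Sc.pow {ρ : Representation ℂ G E} {W : Submodule ℂ E} {t : G} {x : ℂ}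
    (h : Sc ρ W t x) (k : ℕ) : Sc ρ W (t ^ k) (x ^ k) := by
  induction k with
  | zero => simpa using Sc.one ρ W
  | succ k ih => rw [pow_succ, pow_succ]; exact ih.mul h

theorem Sc.pow_card {ρ : Representation ℂ G E} {W : Submodule ℂ E} (hW : W ≠ ⊥) {t : G} {x : ℂ}
    (h : Sc ρ W t x) : x ^ Nat.card G = 1 := by
  have := h.pow (Nat.card G)
  rw [pow_card_eq_one'] at this
  exact this.unique hW (Sc.one ρ W)

theorem Sc.shift {ρ : Representation ℂ G E} {W : Submodule ℂ E} {a b : G} {x : ℂ}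
    (h : Sc ρ W (b⁻¹ * a) x) {w : E} (hw : w ∈ W) : ρ a w = x • ρ b w := by
  rw [← map_smul, ← h w hw, rep_apply_apply, mul_inv_cancel_left]

open Classical in
/-- The scalar by which `t` acts on `W`, or zero. -/
noncomputable def phi (ρ : Representation ℂ G E) (W : Submodule ℂ E) (t : G) : ℂ :=
  if h : ∃ ζ, Sc ρ W t ζ then h.choose else 0

theorem phi_spec {ρ : Representation ℂ G E} {W : Submodule ℂ E} {t : G} (h : ∃ ζ, Sc ρ W t ζ) :
    Sc ρ W t (phi ρ W t) := by
  rw [phi, dif_pos h]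
  exact h.choose_spec

theorem phi_of_not {ρ : Representation ℂ G E} {W : Submodule ℂ E} {t : G}
    (h : ¬ ∃ ζ, Sc ρ W t ζ) : phi ρ W t = 0 := by
  rw [phi, dif_neg h]

/-- Indices whose group elements are proportional on `W`. -/
def relW {q : ℕ} (ρ : Representation ℂ G E) (W : Submodule ℂ E) (h : Fin q → G) :
    Setoid (Fin q) where
  r i j := ∃ ζ, Sc ρ W ((h j)⁻¹ * h i) ζ
  iseqv :=
    { refl := fun i => ⟨1, by rw [inv_mul_cancel]; exact Sc.one ρ W⟩
      symm := fun ⟨ζ, hζ⟩ => ⟨ζ⁻¹, by simpa using hζ.inv⟩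
      trans := fun ⟨x, hx⟩ ⟨y, hy⟩ => ⟨y * x, by simpa [mul_assoc] using hy.mul hx⟩ }

/-- The collected coefficients. -/
noncomputable def beta {q : ℕ} (ρ : Representation ℂ G E) (W : Submodule ℂ E) (α : Fin q → ℂ)
    (h : Fin q → G) (j : Fin q) : ℂ := ∑ i, α i * phi ρ W ((h j)⁻¹ * h i)

open Classical in
theorem class_sum {q : ℕ} (ρ : Representation ℂ G E) (W : Submodule ℂ E) (α : Fin q → ℂ)
    (h : Fin q → G) (j : Fin q) {w : E} (hw : w ∈ W) :
    ∑ i ∈ univ.filter (fun i => relW ρ W h i j), α i • ρ (h i) w =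
      beta ρ W α h j • ρ (h j) w := by
  rw [beta, sum_smul, sum_filter]
  refine sum_congr rfl fun i _ => ?_
  split_ifs with hij
  · rw [(phi_spec hij).shift hw, smul_smul]
  · rw [phi_of_not hij, mul_zero, zero_smul]

variable [FiniteDimensional ℂ E]

/-- The partial trace of `t` on `W`. -/
noncomputable def tau (ρ : Representation ℂ G E) (W : Submodule ℂ E) (t : G) : ℂ :=
  ∑ i, ⟪(stdOrthonormalBasis ℂ W i : E), ρ t (stdOrthonormalBasis ℂ W i)⟫_ℂ

theorem local_est {q : ℕ} (hq : 0 < q) {ρ : Representation ℂ G E} (hρ : IsUni ρ)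
    {W : Submodule ℂ E} (hW : W ≠ ⊥) {P : ℕ} (hP : 4 * q ^ 2 ≤ P)
    (hd : ∀ t, (∃ ζ, Sc ρ W t ζ) ∨ ‖tau ρ W t‖ ^ 2 * P ≤ (finrank ℂ W : ℝ) ^ 2)
    (α : Fin q → ℂ) (h : Fin q → G) :
    ∃ l, (∀ w ∈ W, ‖∑ i, α i • ρ (h i) w‖ ≤ q * ‖beta ρ W α h l‖ * ‖w‖) ∧
      ‖∑ k, ⟪ρ (h l) (stdOrthonormalBasis ℂ W k : E),
          ∑ i, α i • ρ (h i) (stdOrthonormalBasis ℂ W k : E)⟫_ℂ -
          beta ρ W α h l * finrank ℂ W‖ ≤ ‖beta ρ W α h l‖ * finrank ℂ W / 2 ∧
      (beta ρ W α h l = 0 → ∀ j, beta ρ W α h j = 0) := by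
  classical
  obtain ⟨J, hJ1, hJ2, hJ3⟩ := exists_reps (relW ρ W h)
  set β := beta ρ W α h with hβ
  set d := finrank ℂ W with hdd
  set b := stdOrthonormalBasis ℂ W with hbb
  have hJne : J.Nonempty := by
    obtain ⟨j, hj, -⟩ := hJ2 ⟨0, hq⟩
    exact ⟨j, hj⟩
  obtain ⟨l, hl, hmax⟩ := J.exists_max_image (fun j => ‖β j‖) hJne
  have hJcard : (J.card : ℝ) ≤ q := by
    have := card_le_univ J
    rw [Fintype.card_fin] at this
    exact_mod_cast this
  have hnf : ∀ w ∈ W, ∑ i, α i • ρ (h i) w = ∑ j ∈ J, β j • ρ (h j) w := by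
    intro w hw
    rw [hJ3]
    refine sum_congr rfl fun j _ => ?_
    convert class_sum ρ W α h j hw
  refine ⟨l, fun w hw => ?_, ?_, fun h0 j => ?_⟩
  · rw [hnf w hw]
    refine (norm_sum_le _ _).trans ?_
    calc ∑ j ∈ J, ‖β j • ρ (h j) w‖ ≤ ∑ _j ∈ J, ‖β l‖ * ‖w‖ := by
          refine sum_le_sum fun j hj => ?_
          rw [norm_smul, hρ.norm]
          exact mul_le_mul_of_nonneg_right (hmax j hj) (norm_nonneg _)
      _ = J.card * (‖β l‖ * ‖w‖) := by rw [sum_const, nsmul_eq_mul]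
      _ ≤ q * ‖β l‖ * ‖w‖ := by
          rw [mul_assoc]
          exact mul_le_mul_of_nonneg_right hJcard (by positivity)
  · have e1 : ∑ k, ⟪ρ (h l) (b k : E), ∑ i, α i • ρ (h i) (b k : E)⟫_ℂ =
        ∑ j ∈ J, β j * tau ρ W ((h l)⁻¹ * h j) := by
      simp_rw [fun k => hnf (b k) (Submodule.coe_mem _), inner_sum, inner_smul_right, hρ.adj,
        tau, mul_sum]
      rw [sum_comm]
    have e2 : tau ρ W ((h l)⁻¹ * h l) = d := by
      rw [inv_mul_cancel, tau, map_one]
      simp only [Module.End.one_apply, ← Submodule.coe_inner]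
      simp [d]
    have hq' : (0 : ℝ) < q := by exact_mod_cast hq
    have e3 : ∀ j ∈ J.erase l, ‖β j * tau ρ W ((h l)⁻¹ * h j)‖ ≤ ‖β l‖ * (d / (2 * q)) := by
      intro j hj
      rw [norm_mul]
      refine mul_le_mul (hmax j (mem_of_mem_erase hj)) ?_ (norm_nonneg _) (norm_nonneg _)
      have h1 := (hd ((h l)⁻¹ * h j)).resolve_left fun hh =>
        ne_of_mem_erase hj (hJ1 j (mem_of_mem_erase hj) l hl hh)
      have hP' : (4 * q ^ 2 : ℝ) ≤ P := by exact_mod_cast hP
      rw [le_div_iff₀ (by positivity)]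
      refine (pow_le_pow_iff_left₀ (by positivity) (by positivity) two_ne_zero).mp ?_
      refine le_trans ?_ h1
      rw [mul_pow]
      refine mul_le_mul_of_nonneg_left ?_ (by positivity)
      linarith
    rw [e1, ← add_sum_erase J _ hl, e2, add_sub_cancel_left]
    refine (norm_sum_le _ _).trans ((sum_le_sum e3).trans ?_)
    rw [sum_const, nsmul_eq_mul]
    have : ((J.erase l).card : ℝ) ≤ q :=
      le_trans (by exact_mod_cast card_erase_le) hJcard
    calc ((J.erase l).card : ℝ) * (‖β l‖ * (d / (2 * q))) ≤ q * (‖β l‖ * (d / (2 * q))) :=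
          mul_le_mul_of_nonneg_right this (by positivity)
      _ = ‖β l‖ * d / 2 := by field_simp
  · obtain ⟨j', hj', hjj'⟩ := hJ2 j
    have h1 : β j' = 0 := by
      have := hmax j' hj'
      rw [h0, norm_zero] at this
      exact norm_le_zero_iff.mp this
    obtain ⟨w, hw, hw0⟩ := (Submodule.ne_bot_iff W).mp hW
    have e1 := class_sum ρ W α h j hw
    have e2 := class_sum ρ W α h j' hw
    have e3 : β j • ρ (h j) w = β j' • ρ (h j') w := by
      rw [← e1, ← e2]
      refine sum_congr ?_ fun _ _ => rfl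
      ext i
      simp only [mem_filter, mem_univ, true_and]
      exact ⟨fun hh => (relW ρ W h).trans hh hjj',
        fun hh => (relW ρ W h).trans hh ((relW ρ W h).symm hjj')⟩
    rw [h1, zero_smul, smul_eq_zero] at e3
    refine e3.resolve_right fun hh => hw0 (rep_inj ρ (h j) ?_)
    rw [hh, map_zero]

theorem beta_eq_zero {q : ℕ} (hq : 0 < q) {ρ : Representation ℂ G E} (hρ : IsUni ρ)
    {W : Submodule ℂ E} (hW : W ≠ ⊥) {P : ℕ} (hP : 4 * q ^ 2 ≤ P)
    (hd : ∀ t, (∃ ζ, Sc ρ W t ζ) ∨ ‖tau ρ W t‖ ^ 2 * P ≤ (finrank ℂ W : ℝ) ^ 2)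
    (α : Fin q → ℂ) (h : Fin q → G) (h0 : ∀ w ∈ W, ∑ i, α i • ρ (h i) w = 0) (j : Fin q) :
    beta ρ W α h j = 0 := by
  obtain ⟨l, -, h2, h3⟩ := local_est hq hρ hW hP hd α h
  refine h3 ?_ j
  simp_rw [fun k => h0 (stdOrthonormalBasis ℂ W k) (Submodule.coe_mem _)] at h2
  simp only [inner_zero_right, sum_const_zero, zero_sub, norm_neg, norm_mul,
    Complex.norm_natCast] at h2
  have hpos : (0 : ℝ) < finrank ℂ W := by
    exact_mod_cast Submodule.one_le_finrank_iff.mpr hW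
  have : ‖beta ρ W α h l‖ ≤ 0 := by
    by_contra hc
    push Not at hc
    nlinarith [mul_pos hc hpos]
  exact norm_le_zero_iff.mp this

omit [FiniteDimensional ℂ E] in
/-- A bounded list of tests separates a block killed by the combination from one that is not. -/
theorem exists_test [Finite G] {q : ℕ} (ρ : Representation ℂ G E) (α : Fin q → ℂ) (R : Finset ℂ)
    (hR : ∀ y : Fin q → ℂ, (∀ i, y i = 0 ∨ y i ^ Nat.card G = 1) → ∑ i, α i * y i = 0 →
        ∀ (J : Fin q → Prop) [DecidablePred J],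
          (∀ i j, J i → ¬ J j → y i ≠ 0 → y j ≠ 0 → y i / y j ∉ R) →
          ∑ i ∈ univ.filter J, α i * y i = 0)
    (h : Fin q → G) {x x0 : Submodule ℂ E} (hx : x ≠ ⊥) (hb : ∀ j, beta ρ x α h j = 0)
    (hx0 : ∃ w ∈ x0, ∑ i, α i • ρ (h i) w ≠ 0) :
    ∃ i j, ∃ ζ ∈ R, Sc ρ x ((h j)⁻¹ * h i) ζ ∧ ¬ Sc ρ x0 ((h j)⁻¹ * h i) ζ := by
  classical
  by_contra hcon
  push Not at hcon
  obtain ⟨w, hw, hne⟩ := hx0
  apply hne
  let s : Setoid (Fin q) :=
    { r := fun i j => ∃ ζ, Sc ρ x ((h j)⁻¹ * h i) ζ ∧ Sc ρ x0 ((h j)⁻¹ * h i) ζ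
      iseqv :=
        { refl := fun i => ⟨1, by rw [inv_mul_cancel]; exact ⟨Sc.one ρ x, Sc.one ρ x0⟩⟩
          symm := fun ⟨ζ, h1, h2⟩ => ⟨ζ⁻¹, by simpa using h1.inv, by simpa using h2.inv⟩
          trans := fun ⟨a, h1, h2⟩ ⟨b, h3, h4⟩ =>
            ⟨b * a, by simpa [mul_assoc] using h3.mul h1,
              by simpa [mul_assoc] using h4.mul h2⟩ } }
  obtain ⟨J, -, -, hJ3⟩ := exists_reps s
  rw [hJ3]
  refine sum_eq_zero fun j _ => ?_
  set y : Fin q → ℂ := fun i => phi ρ x ((h j)⁻¹ * h i) with hy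
  have hyS : ∀ i, y i ≠ 0 → Sc ρ x ((h j)⁻¹ * h i) (y i) := by
    intro i hi
    refine phi_spec ?_
    by_contra hc
    exact hi (phi_of_not hc)
  have h1 := hR y (fun i => by
    by_cases hi : y i = 0
    · exact Or.inl hi
    · exact Or.inr ((hyS i hi).pow_card hx)) (hb j) (fun i => s i j) (by
      intro i i' hi hi' h2 h3 hmem
      have e : Sc ρ x ((h i')⁻¹ * h i) (y i / y i') := by
        have := (hyS i' h3).inv.mul (hyS i h2)
        rw [div_eq_inv_mul]
        simpa [mul_assoc] using this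
      exact hi' (s.trans (s.symm ⟨_, e, hcon i i' _ hmem e⟩) hi))
  calc ∑ i ∈ univ.filter (fun i => s i j), α i • ρ (h i) w
      = ∑ i ∈ univ.filter (fun i => s i j), (α i * y i) • ρ (h j) w := by
        refine sum_congr rfl fun i hi => ?_
        obtain ⟨ζ, h2, h3⟩ := (mem_filter.mp hi).2
        have : y i = ζ := (phi_spec ⟨ζ, h2⟩).unique hx h2
        rw [h3.shift hw, this, smul_smul]
    _ = 0 := by rw [← sum_smul, h1, zero_smul]

end Pool.Agent.Work.MP_11a08a_al
end
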