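import Pool.Agent.Work.MP_11a08a_al.MV.AD
import Pool.Agent.Work.MP_11a08a_al.MV.Wild
import Pool.Agent.Work.MP_11a08a_al.MV.Star
import Pool.Agent.Work.MP_11a08a_al.MV.Rep

set_option autoImplicit false

open scoped commutatorElement

namespace Pool.Agent.Results.MP_11a08a_al.CharZeroAbelianByClassTwo

/-- The linear map `∑ l, α l • ρ (h l)`. -/
noncomputable def comb {F G : Type} [Field F] [Group G] {n q : ℕ}
    (ρ : Representation F G (Fin n → F)) (h : Fin q → G) (α : Fin q → F) :
    (Fin n → F) →ₗ[F] (Fin n → F) := ∑ l, α l • ρ (h l)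

/-- The rank of a linear map. -/
noncomputable def rk {F : Type} [Field F] {n : ℕ} (f : (Fin n → F) →ₗ[F] (Fin n → F)) : ℕ :=
  Module.finrank F (LinearMap.range f)

/-- The conjectured rank bound in characteristic zero whenever the finite group `G` has an
abelian normal subgroup `A` such that all quotients `(h l)⁻¹ * h l'` lie, modulo `A`, in the second
centre of `G ⧸ A`.  This covers all metabelian groups, all groups that are abelian by nilpotent of
class at most two, and arbitrary groups when the `h l` lie in one coset of an abelian normal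
subgroup. -/
theorem result :
    ∀ ε : ℝ, 0 < ε → ∀ q : ℕ, ∃ N : ℕ, ∀ n > N,
      ∀ (F : Type) [Field F] [CharZero F] (G : Type) [Group G] [Finite G] (A : Subgroup G),
        A.Normal → IsMulCommutative A →
        ∀ ρ : Representation F G (Fin n → F), ρ.IsIrreducible → (Nat.card G : ℝ) ^ ε ≤ n →
        ∀ (h : Fin q → G) (α : Fin q → F),
          (∀ (l l' : Fin q) (x y : G), ⁅⁅(h l)⁻¹ * h l', x⁆, y⁆ ∈ A) →
          comb ρ h α ≠ 0 → (n : ℝ) ^ (1 - ε) ≤ rk (comb ρ h α) :=
  open Pool.Agent.Work.MP_11a08a_al.MV in final_of_star (star ad wild)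

end Pool.Agent.Results.MP_11a08a_al.CharZeroAbelianByClassTwo
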