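import Pool.Agent.Work.MP_11a08a_al.Final

set_option autoImplicit false

namespace Pool.Agent.Results.MP_11a08a_al.CharZeroSolvable

/-- `G` has an abelian normal subgroup `A` such that `G/A` is nilpotent, or `G/A` is solvable and
all primes dividing the index of `A` exceed `P`. -/
def InClass (G : Type) [Group G] (P : ℕ) : Prop :=
  ∃ (A : Subgroup G) (_ : A.Normal), IsMulCommutative A ∧
    (Group.IsNilpotent (G ⧸ A) ∨
      (Group.IsSolvable (G ⧸ A) ∧ ∀ p : ℕ, p.Prime → p ∣ A.index → P < p))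

/-- The linear map `∑ l, α l • ρ (h l)`. -/
noncomputable def comb {F G : Type} [Field F] [Group G] {n q : ℕ}
    (ρ : Representation F G (Fin n → F)) (h : Fin q → G) (α : Fin q → F) :
    (Fin n → F) →ₗ[F] (Fin n → F) := ∑ l, α l • ρ (h l)

/-- The rank of a linear map. -/
noncomputable def rk {F : Type} [Field F] {n : ℕ} (f : (Fin n → F) →ₗ[F] (Fin n → F)) : ℕ :=
  Module.finrank F (LinearMap.range f)

/-- The conjectured rank bound in characteristic zero for groups `G` with an abelian normal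
subgroup `A` such that `G/A` is nilpotent, or solvable of order prime to all primes up to `P`,
provided the number of prime factors of `|G|` (with multiplicity) is at most `η log |G|`. -/
theorem result :
    ∀ ε : ℝ, 0 < ε → ∀ q : ℕ, ∃ (N P : ℕ) (η : ℝ), 0 < η ∧ ∀ n > N,
      ∀ (F : Type) [Field F] [CharZero F] (G : Type) [Group G] [Finite G], InClass G P →
      (ArithmeticFunction.cardFactors (Nat.card G) : ℝ) ≤ η * Real.log (Nat.card G) →
      ∀ ρ : Representation F G (Fin n → F), ρ.IsIrreducible → (Nat.card G : ℝ) ^ ε ≤ n →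
      ∀ (h : Fin q → G) (α : Fin q → F), comb ρ h α ≠ 0 →
        (n : ℝ) ^ (1 - ε) ≤ rk (comb ρ h α) := by
  intro ε hε q
  obtain ⟨C, P, hC, H⟩ := Pool.Agent.Work.MP_11a08a_al.quant q
  obtain ⟨N, η, hη, hN⟩ := Pool.Agent.Work.MP_11a08a_al.numeric ε hε C hC
  exact ⟨N, P, η, hη, fun n hn F _ _ G _ _ ⟨A, hA, hc, hG⟩ hΩ ρ hρ hg h α hne =>
    hN n hn _ _ _ Nat.card_pos hΩ hg
      (H F G ⟨A, hA, fun a ha b hb => setLike_mul_comm ha hb, hG⟩ n ρ hρ h α hne)⟩

end Pool.Agent.Results.MP_11a08a_al.CharZeroSolvable
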